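import Pool.Agent.H328R2.ABC.RadSum

/-!
# Pairs of integers such that `4 a³ - 27 b²` has a small radical
-/

set_option autoImplicit false

namespace Pool.Agent.Zk95.SZ

open Finset
open Pool.Agent.H328R2.ABC (rad sum_inv_rad)

lemma rad_pos (m : ℕ) : 0 < rad m := by
  unfold rad
  exact prod_pos fun p hp => (Nat.prime_of_mem_primeFactors hp).pos

/-- few integers with small radical -/
theorem card_rad_le (M : ℕ) (Y : ℝ) :
    (((Icc 1 M).filter (fun m => (rad m : ℝ) ≤ Y)).card : ℝ) ≤ Y * ∑ m ∈ Icc 1 M, (1 : ℝ) / rad m ∨ Y < 0 := by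
  classical
  rcases lt_or_ge Y 0 with hY | hY
  · exact Or.inr hY
  left
  have h1 : (((Icc 1 M).filter (fun m => (rad m : ℝ) ≤ Y)).card : ℝ) =
      ∑ m ∈ (Icc 1 M).filter (fun m => (rad m : ℝ) ≤ Y), (1 : ℝ) := by simp
  rw [h1, mul_sum]
  calc ∑ m ∈ (Icc 1 M).filter (fun m => (rad m : ℝ) ≤ Y), (1 : ℝ)
      ≤ ∑ m ∈ (Icc 1 M).filter (fun m => (rad m : ℝ) ≤ Y), Y * (1 / (rad m : ℝ)) := by
        apply sum_le_sum
        intro m hm
        rw [mem_filter] at hm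
        have : (0 : ℝ) < rad m := by exact_mod_cast rad_pos m
        rw [mul_one_div, le_div_iff₀ this]
        linarith [hm.2]
    _ ≤ _ := by
        apply sum_le_sum_of_subset_of_nonneg (filter_subset _ _)
        intro m _ _
        positivity

/-- the pairs `|a| ≤ X²`, `|b| ≤ X³` such that `4 a³ - 27 b²` is not `0` and has radical at most `R` -/
def Pairs (X R : ℝ) : Set (ℤ × ℤ) :=
  {q | |(q.1 : ℝ)| ≤ X ^ 2 ∧ |(q.2 : ℝ)| ≤ X ^ 3 ∧ 4 * q.1 ^ 3 - 27 * q.2 ^ 2 ≠ 0 ∧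
    (rad (4 * q.1 ^ 3 - 27 * q.2 ^ 2).natAbs : ℝ) ≤ R}

/-- `a`, `|D|` and the signs of `D` and `b` -/
def code (q : ℤ × ℤ) : ℤ × ℕ × Bool × Bool :=
  (q.1, (4 * q.1 ^ 3 - 27 * q.2 ^ 2).natAbs, decide (0 ≤ 4 * q.1 ^ 3 - 27 * q.2 ^ 2), decide (0 ≤ q.2))

lemma code_inj : Function.Injective code := by
  rintro ⟨a, b⟩ ⟨a', b'⟩ h
  simp only [code, Prod.mk.injEq] at h
  obtain ⟨h1, h2, h3, h4⟩ := h
  subst h1
  have h5 : 4 * a ^ 3 - 27 * b ^ 2 = 4 * a ^ 3 - 27 * b' ^ 2 := by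
    rcases Int.natAbs_eq_natAbs_iff.1 h2 with h | h
    · exact h
    · rw [decide_eq_decide] at h3
      by_cases h6 : 0 ≤ 4 * a ^ 3 - 27 * b ^ 2
      · have h7 := h3.1 h6
        omega
      · have h7 : ¬ (0 ≤ 4 * a ^ 3 - 27 * b' ^ 2) := fun h8 => h6 (h3.2 h8)
        omega
  have h6 : b ^ 2 = b' ^ 2 := by omega
  rw [decide_eq_decide] at h4
  have h7 : b = b' := by
    rcases sq_eq_sq_iff_eq_or_eq_neg.1 h6 with h | h
    · exact h
    · by_cases h8 : 0 ≤ b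
      · have := h4.1 h8
        omega
      · have : ¬ (0 ≤ b') := fun h9 => h8 (h4.2 h9)
        omega
  rw [h7]

/-- few pairs with small radical -/
theorem few_pairs (ε : ℝ) (hε : 0 < ε) : ∃ C : ℝ, 0 < C ∧ ∀ X R : ℝ, 1 ≤ X → 0 ≤ R →
    (Pairs X R).Finite ∧ ((Pairs X R).ncard : ℝ) ≤ C * R * X ^ (2 + ε) := by
  classical
  obtain ⟨C, hC, hrad⟩ := sum_inv_rad (ε / 6) (by linarith)
  refine ⟨3 * (C * 31 ^ (ε / 6)) * 4, by positivity, fun X R hX hR => ?_⟩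
  have hX0 : 0 < X := by linarith
  have hX2 : 1 ≤ X ^ 2 := one_le_pow₀ hX
  have hX6 : 1 ≤ X ^ 6 := one_le_pow₀ hX
  set N : ℕ := ⌊X ^ 2⌋₊ with hN
  set M : ℕ := ⌊31 * X ^ 6⌋₊ with hM
  have hNle : (N : ℝ) ≤ X ^ 2 := Nat.floor_le (by positivity)
  have hMle : (M : ℝ) ≤ 31 * X ^ 6 := Nat.floor_le (by positivity)
  have hM1 : 1 ≤ M := Nat.le_floor (by push_cast; linarith)
  set D : Finset ℕ := (Icc 1 M).filter (fun m => (rad m : ℝ) ≤ R) with hD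
  set F : Finset (ℤ × ℕ × Bool × Bool) := Icc (-(N : ℤ)) N ×ˢ (D ×ˢ univ) with hF
  have hmaps : ∀ q ∈ Pairs X R, code q ∈ (F : Set (ℤ × ℕ × Bool × Bool)) := by
    rintro ⟨a, b⟩ ⟨h1, h2, h3, h4⟩
    simp only at h1 h2 h3 h4
    have e1 : a.natAbs ≤ N := by
      apply Nat.le_floor
      rw [Nat.cast_natAbs, Int.cast_abs]
      exact h1
    have e2 : (4 * a ^ 3 - 27 * b ^ 2).natAbs ≤ M := by
      apply Nat.le_floor
      rw [Nat.cast_natAbs, Int.cast_abs]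
      push_cast
      have g1 : |(a : ℝ)| ^ 3 ≤ (X ^ 2) ^ 3 := pow_le_pow_left₀ (abs_nonneg _) h1 3
      have g2 : |(b : ℝ)| ^ 2 ≤ (X ^ 3) ^ 2 := pow_le_pow_left₀ (abs_nonneg _) h2 2
      calc |4 * (a : ℝ) ^ 3 - 27 * (b : ℝ) ^ 2| ≤ |4 * (a : ℝ) ^ 3| + |27 * (b : ℝ) ^ 2| := abs_sub _ _
        _ = 4 * |(a : ℝ)| ^ 3 + 27 * |(b : ℝ)| ^ 2 := by
            rw [abs_mul, abs_mul, abs_pow, abs_pow]
            norm_num
        _ ≤ 4 * (X ^ 2) ^ 3 + 27 * (X ^ 3) ^ 2 := by linarith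
        _ = 31 * X ^ 6 := by ring
    have e3 : 1 ≤ (4 * a ^ 3 - 27 * b ^ 2).natAbs := Int.natAbs_pos.2 h3
    simp only [code, hF, hD, coe_product, Set.mem_prod, mem_coe, mem_Icc, mem_filter, mem_univ, and_true]
    refine ⟨⟨by omega, by omega⟩, ⟨e3, e2⟩, h4⟩
  have hinj : Set.InjOn code (Pairs X R) := code_inj.injOn
  refine ⟨Set.Finite.of_injOn hmaps hinj (finite_toSet F), ?_⟩
  have h1 : (Pairs X R).ncard ≤ F.card := by
    rw [← Set.ncard_coe_finset F]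
    exact Set.ncard_le_ncard_of_injOn code hmaps hinj (finite_toSet F)
  have h2 : (F.card : ℝ) = (2 * N + 1) * (D.card * 4) := by
    rw [hF, card_product, card_product, Int.card_Icc]
    have : ((N : ℤ) + 1 - -(N : ℤ)).toNat = 2 * N + 1 := by omega
    rw [this]
    simp [Fintype.card_prod]
  have h3 : (D.card : ℝ) ≤ R * (C * (M : ℝ) ^ (ε / 6)) := by
    rcases card_rad_le M R with h | h
    · exact h.trans (mul_le_mul_of_nonneg_left (hrad M hM1) hR)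
    · linarith
  have h4 : (M : ℝ) ^ (ε / 6) ≤ 31 ^ (ε / 6) * X ^ ε := by
    calc (M : ℝ) ^ (ε / 6) ≤ (31 * X ^ 6) ^ (ε / 6) := Real.rpow_le_rpow (Nat.cast_nonneg _) hMle (by linarith)
      _ = 31 ^ (ε / 6) * X ^ ε := by
          rw [Real.mul_rpow (by norm_num) (by positivity), ← Real.rpow_natCast X 6, ← Real.rpow_mul hX0.le]
          congr 2
          push_cast
          ring
  have h5 : (2 * N + 1 : ℝ) ≤ 3 * X ^ 2 := by linarith
  have h6 : X ^ (2 + ε) = X ^ 2 * X ^ ε := by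
    rw [Real.rpow_add hX0, Real.rpow_two]
  calc ((Pairs X R).ncard : ℝ) ≤ (F.card : ℝ) := by exact_mod_cast h1
    _ = (2 * N + 1) * (D.card * 4) := h2
    _ ≤ (3 * X ^ 2) * ((R * (C * (31 ^ (ε / 6) * X ^ ε))) * 4) := by
        apply mul_le_mul h5 _ (by positivity) (by positivity)
        apply mul_le_mul_of_nonneg_right _ (by norm_num)
        exact h3.trans (mul_le_mul_of_nonneg_left (mul_le_mul_of_nonneg_left h4 hC.le) hR)
    _ = 3 * (C * 31 ^ (ε / 6)) * 4 * R * X ^ (2 + ε) := by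
        rw [h6]
        ring

end Pool.Agent.Zk95.SZ
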